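import Pool.Agent.FHQ.StmtsP

/-!
# Squad FHQ, row BAL: balls
-/

open scoped BigOperators

noncomputable section

namespace Pool.Agent.FHQ.H39

section ball

variable {p : ℕ} [hp : Fact p.Prime] {K : Type} [Field K] (A : AcF0 p K)

include hp in
theorem ac_one : A.ac 1 = 1 := by
  have h1 : A.ac 1 ≠ 0 := fun h => one_ne_zero ((A.ac_zero 1).1 h)
  have h2 := A.ac_mul 1 1
  rw [mul_one] at h2
  exact (mul_left_cancel₀ h1 (by rw [mul_one]; exact h2)).symm

theorem v_one : A.v 1 = 0 := by
  have h2 := A.v_mul 1 1 one_ne_zero one_ne_zero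
  rw [mul_one] at h2
  linarith

theorem v_neg (x : K) : A.v (-x) = A.v x := by
  by_cases hx : x = 0
  · rw [hx, neg_zero]
  · have h1 : A.v (-1) = 0 := by
      have h2 := A.v_mul (-1) (-1) (neg_ne_zero.2 one_ne_zero) (neg_ne_zero.2 one_ne_zero)
      rw [neg_mul_neg, mul_one, v_one] at h2
      linarith
    have h3 := A.v_mul (-1) x (neg_ne_zero.2 one_ne_zero) hx
    rw [neg_one_mul, h1, zero_add] at h3
    exact h3

include hp in
theorem ac_neg (x : K) : A.ac (-x) = -A.ac x := by
  have h1 : A.ac (-1) = -1 := by
    by_contra hno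
    have h2 : A.ac 1 + A.ac (-1) ≠ 0 := by
      rw [ac_one]
      intro h
      apply hno
      exact (neg_eq_of_add_eq_zero_right h).symm
    have h3 := (A.add_eq 1 (-1) one_ne_zero (neg_ne_zero.2 one_ne_zero)
      (v_neg A 1).symm h2).2
    rw [add_neg_cancel, (A.ac_zero 0).2 rfl] at h3
    exact h2 h3.symm
  have h2 := A.ac_mul (-1) x
  rw [neg_one_mul, h1, neg_one_mul] at h2
  exact h2

theorem ultra {x y : K} (hx : x ≠ 0) (hy : y ≠ 0) (hxy : x + y ≠ 0) :
    min (A.v x) (A.v y) ≤ A.v (x + y) := by
  rcases lt_trichotomy (A.v x) (A.v y) with h | h | h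
  · rw [(A.add_lt x y hx hy h).1]
    exact min_le_left _ _
  · by_cases h2 : A.ac x + A.ac y = 0
    · rcases A.add_gt x y hx hy h h2 with h3 | h3
      · exact absurd h3 hxy
      · exact (min_le_left _ _).trans h3.le
    · rw [(A.add_eq x y hx hy h h2).1]
      exact min_le_left _ _
  · rw [add_comm x y, (A.add_lt y x hy hx h).1]
    exact min_le_right _ _

theorem ball_symm {a y : K} {g : ℤ} (h : y ∈ A.ball a g) : a ∈ A.ball y g := by
  rcases h with h | h
  · exact Or.inl h.symm
  · right
    have h1 := v_neg A (y - a)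
    rw [neg_sub] at h1
    rw [h1]
    exact h

theorem ball_trans {a y z : K} {g : ℤ} (h : y ∈ A.ball a g) (h' : z ∈ A.ball y g) :
    z ∈ A.ball a g := by
  by_cases hza : z = a
  · exact Or.inl hza
  · rcases h with h | h
    · rw [h] at h'
      exact h'
    · rcases h' with h' | h'
      · rw [h']
        exact Or.inr h
      · by_cases h1 : z = y
        · rw [h1]
          exact Or.inr h
        · by_cases h2 : y = a
          · rw [h2] at h'
            exact Or.inr h'
          · right
            have h3 : z - y ≠ 0 := sub_ne_zero.2 h1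
            have h4 : y - a ≠ 0 := sub_ne_zero.2 h2
            have h5 : (z - y) + (y - a) = z - a := by ring
            have h6 : (z - y) + (y - a) ≠ 0 := by
              rw [h5]
              exact sub_ne_zero.2 hza
            have h7 := ultra A h3 h4 h6
            rw [h5] at h7
            exact (le_min h' h).trans h7

theorem ball_mono {a : K} {g g' : ℤ} (h : g ≤ g') : A.ball a g' ⊆ A.ball a g := by
  intro y hy
  rcases hy with hy | hy
  · exact Or.inl hy
  · exact Or.inr (h.trans hy)

end ball

/-- row BAL -/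
theorem bal : BalStmt := by
  intro p _ K _ A
  refine ⟨?_, fun x y hx hy hxy => ultra A hx hy hxy, fun a g => Or.inl rfl, ?_,
    fun a g g' h => ball_mono A h, ?_, ?_⟩
  · intro x y
    constructor
    · rintro ⟨hx, hy, h1, h2⟩
      refine ⟨hx, hy, ?_⟩
      have h3 : A.ac x + A.ac (-y) = 0 := by
        rw [ac_neg, h1]
        ring
      have h4 := A.add_gt x (-y) hx (neg_ne_zero.2 hy) (by rw [v_neg, h2]) h3
      rw [← sub_eq_add_neg] at h4
      rcases h4 with h4 | h4
      · exact Or.inl (sub_eq_zero.1 h4)
      · exact Or.inr h4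
    · rintro ⟨hx, hy, h⟩
      refine ⟨hx, hy, ?_⟩
      by_cases hxy : x = y
      · rw [hxy]
        exact ⟨rfl, rfl⟩
      · have h1 : A.v x < A.v (x - y) := by
          rcases h with h | h
          · exact absurd h hxy
          · exact h
        have h2 : A.v x < A.v (y - x) := by
          have h3 := v_neg A (x - y)
          rw [neg_sub] at h3
          rw [h3]
          exact h1
        have h4 := A.add_lt x (y - x) hx (sub_ne_zero.2 (fun h => hxy h.symm)) h2
        have h5 : x + (y - x) = y := by ring
        rw [h5] at h4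
        exact ⟨h4.2.symm, h4.1.symm⟩
  · intro a b g hb
    ext y
    exact ⟨fun hy => ball_trans A hb hy, fun hy => ball_trans A (ball_symm A hb) hy⟩
  · rintro a b g g' hgg ⟨x, hx1, hx2⟩ y hy
    have h1 : b ∈ A.ball x g := ball_mono A hgg (ball_symm A hx2)
    exact ball_trans A hx1 (ball_trans A h1 (ball_mono A hgg hy))
  · intro a b g g' h
    by_contra hno
    rw [not_le] at hno
    obtain ⟨x, hx0, -, hxv⟩ := A.surj 1 g one_ne_zero
    have h1 : a ∈ A.ball b g' := h (Or.inl rfl)
    have h2 : a + x ∈ A.ball b g' := by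
      apply h
      right
      rw [add_sub_cancel_left, hxv]
    have h3 := ball_trans A (ball_symm A h1) h2
    rcases h3 with h3 | h3
    · apply hx0
      have h4 : a + x = a + 0 := by rw [add_zero]; exact h3
      exact add_left_cancel h4
    · rw [add_sub_cancel_left, hxv] at h3
      linarith

end Pool.Agent.FHQ.H39
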