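import Pool.Agent.FHQ.StmtsP

/-!
# Squad FHQ, row PSB: substitution of affine maps in Presburger definable sets
-/

open scoped BigOperators

noncomputable section

namespace Pool.Agent.FHQ.H39

/-- row PSB -/
theorem psb : PsbStmt := by
  intro n m S hS
  induction hS generalizing m with
  | @le n c d =>
    intro a b
    have h := PD.le (n := m) (fun j => ∑ i, c i * a i j) (∑ i, c i * b i + d)
    have e : (fun x : Fin m → ℤ => 0 ≤ ∑ j, (∑ i, c i * a i j) * x j + (∑ i, c i * b i + d)) =
        fun x => 0 ≤ ∑ i, c i * (∑ j, a i j * x j + b i) + d := by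
      funext x
      have e1 : ∑ i, c i * (∑ j, a i j * x j + b i) =
          ∑ j, (∑ i, c i * a i j) * x j + ∑ i, c i * b i := by
        simp only [mul_add, Finset.sum_add_distrib, Finset.mul_sum, Finset.sum_mul]
        congr 1
        rw [Finset.sum_comm]
        refine Finset.sum_congr rfl (fun j _ => Finset.sum_congr rfl (fun i _ => ?_))
        ring
      rw [e1, add_assoc]
    rw [e] at h
    exact h
  | not _ ih =>
    intro a b
    exact PD.not (ih m a b)
  | and _ _ ih1 ih2 =>
    intro a b
    exact PD.and (ih1 m a b) (ih2 m a b)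
  | @ex n S _ ih =>
    intro a b
    let a' : Fin (n + 1) → Fin (m + 1) → ℤ :=
      Fin.cons (Fin.cons 1 0) (fun i => Fin.cons 0 (a i))
    let b' : Fin (n + 1) → ℤ := Fin.cons 0 b
    have h := PD.ex (ih (m + 1) a' b')
    have e : (fun x : Fin m → ℤ => ∃ z : ℤ, S (fun i =>
        ∑ j, a' i j * (Fin.cons z x : Fin (m + 1) → ℤ) j + b' i)) =
        fun x => ∃ z, S (Fin.cons z (fun i => ∑ j, a i j * x j + b i)) := by
      funext x
      have e1 : ∀ z : ℤ, (fun i => ∑ j, a' i j * (Fin.cons z x : Fin (m + 1) → ℤ) j + b' i) =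
          (Fin.cons z (fun i => ∑ j, a i j * x j + b i) : Fin (n + 1) → ℤ) := by
        intro z
        funext i
        refine Fin.cases ?_ (fun i => ?_) i
        · rw [Fin.sum_univ_succ]
          show (1 : ℤ) * z + ∑ j : Fin m, 0 * x j + 0 = z
          simp
        · rw [Fin.sum_univ_succ]
          show (0 : ℤ) * z + ∑ j : Fin m, a i j * x j + b i = ∑ j, a i j * x j + b i
          simp
      simp only [e1]
    rw [e] at h
    exact h

end Pool.Agent.FHQ.H39
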