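import Pool.Agent.FHQ.StmtsP

/-!
# Squad FHQ, row RSB: substitution of polynomials in ring definable families
-/

open scoped BigOperators

noncomputable section

namespace Pool.Agent.FHQ.H39

/-- row RSB -/
theorem rsb : RsbStmt := by
  intro n m S hS
  induction hS generalizing m with
  | eq P =>
    intro f
    have h := RD.eq (n := m) (MvPolynomial.bind₁ f P)
    have e : (fun (p : ℕ) (x : Fin m → ZMod p) =>
        MvPolynomial.aeval x (MvPolynomial.bind₁ f P) = 0) =
        fun p x => MvPolynomial.aeval (fun i => MvPolynomial.aeval x (f i)) P = 0 := by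
      funext p x
      rw [MvPolynomial.aeval_bind₁]
    rw [e] at h
    exact h
  | not _ ih =>
    intro f
    exact RD.not (ih m f)
  | and _ _ ih1 ih2 =>
    intro f
    exact RD.and (ih1 m f) (ih2 m f)
  | @ex n S _ ih =>
    intro f
    let g : Fin (n + 1) → MvPolynomial (Fin (m + 1)) ℤ :=
      Fin.cons (MvPolynomial.X 0) (fun i => MvPolynomial.rename Fin.succ (f i))
    have h := RD.ex (ih (m + 1) g)
    have e : (fun (p : ℕ) (x : Fin m → ZMod p) => ∃ a : ZMod p, S p (fun i =>
        MvPolynomial.aeval (Fin.cons a x : Fin (m + 1) → ZMod p) (g i))) =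
        fun p x => ∃ a, S p (Fin.cons a (fun i => MvPolynomial.aeval x (f i))) := by
      funext p x
      have e1 : ∀ a : ZMod p, (fun i => MvPolynomial.aeval
          (Fin.cons a x : Fin (m + 1) → ZMod p) (g i)) =
          (Fin.cons a (fun i => MvPolynomial.aeval x (f i)) : Fin (n + 1) → ZMod p) := by
        intro a
        funext i
        refine Fin.cases ?_ (fun i => ?_) i
        · show MvPolynomial.aeval (Fin.cons a x : Fin (m + 1) → ZMod p) (MvPolynomial.X 0) = a
          rw [MvPolynomial.aeval_X]
          rfl
        · show MvPolynomial.aeval (Fin.cons a x : Fin (m + 1) → ZMod p)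
            (MvPolynomial.rename Fin.succ (f i)) = MvPolynomial.aeval x (f i)
          rw [MvPolynomial.aeval_rename]
          rfl
      simp only [e1]
    rw [e] at h
    exact h

end Pool.Agent.FHQ.H39
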