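import Pool.Agent.FHQ.StmtsP

/-!
# Squad FHQ, row HEN: a simple cancellation comes from a root
-/

open scoped BigOperators

noncomputable section

namespace Pool.Agent.FHQ.H39

open Polynomial

section tools

variable {p : ℕ} [hp : Fact p.Prime] {K : Type} [Field K]

theorem pow_facts (A : AcF0 p K) (h1 : A.ac 1 = 1) (h2 : A.v 1 = 0) {T : K} (hT : T ≠ 0)
    (k : ℕ) : A.ac (T ^ k) = A.ac T ^ k ∧ A.v (T ^ k) = (k : ℤ) * A.v T := by
  induction k with
  | zero => simp [h1, h2]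
  | succ k ih =>
    refine ⟨?_, ?_⟩
    · rw [pow_succ, A.ac_mul, ih.1, pow_succ]
    · rw [pow_succ, A.v_mul _ _ (pow_ne_zero _ hT) hT, ih.2]
      push_cast
      ring

/-- the normalised polynomial -/
def nrm (W : K[X]) (w T : K) : K[X] := C w⁻¹ * W.comp (C T * X)

theorem nrm_coeff (W : K[X]) (w T : K) (k : ℕ) :
    (nrm W w T).coeff k = w⁻¹ * (W.coeff k * T ^ k) := by
  unfold nrm
  rw [coeff_C_mul, comp_C_mul_X_coeff]

theorem nrm_eval (W : K[X]) (w T u : K) : (nrm W w T).eval u = w⁻¹ * W.eval (T * u) := by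
  unfold nrm
  rw [eval_mul, eval_C, eval_comp, eval_mul, eval_C, eval_X]

/-- the coefficients of the normalised polynomial -/
theorem nrm_res (A : AcF0 p K) (h1 : A.ac 1 = 1) (h2 : A.v 1 = 0)
    (h3 : ∀ x, x ≠ 0 → A.ac x⁻¹ = (A.ac x)⁻¹ ∧ A.v x⁻¹ = -A.v x) {W : K[X]} {D : ℕ} {g : ℤ}
    {k0 : Fin D} (hk0 : Arg (A.cac D W) (A.cv D W) g k0) {w T : K} (hw : w ≠ 0) (hT : T ≠ 0)
    (haw : A.ac w = 1) (haT : A.ac T = 1) (hvw : A.v w = A.cv D W k0 + (k0 : ℕ) * g)
    (hvT : A.v T = g) (k : Fin D) :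
    A.Int ((nrm W w T).coeff k) ∧ ((Arg (A.cac D W) (A.cv D W) g k →
      A.res ((nrm W w T).coeff k) = A.cac D W k) ∧ (¬ Arg (A.cac D W) (A.cv D W) g k →
      A.res ((nrm W w T).coeff k) = 0)) := by
  classical
  rw [nrm_coeff]
  obtain ⟨hpa, hpv⟩ := pow_facts A h1 h2 hT (k : ℕ)
  obtain ⟨hwa, hwv⟩ := h3 w hw
  by_cases hW : W.coeff k = 0
  · have hac : A.cac D W k = 0 := (A.ac_zero _).2 hW
    rw [hW, zero_mul, mul_zero]
    have hres : A.res 0 = 0 := by
      unfold AcF0.res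
      simp
    exact ⟨Or.inl rfl, fun h => absurd hac h.1, fun _ => hres⟩
  · have hac : A.cac D W k ≠ 0 := fun h => hW ((A.ac_zero _).1 h)
    have hTk : T ^ (k : ℕ) ≠ 0 := pow_ne_zero _ hT
    have hne : w⁻¹ * (W.coeff k * T ^ (k : ℕ)) ≠ 0 :=
      mul_ne_zero (inv_ne_zero hw) (mul_ne_zero hW hTk)
    have hv : A.v (w⁻¹ * (W.coeff k * T ^ (k : ℕ))) =
        A.cv D W k + (k : ℕ) * g - (A.cv D W k0 + (k0 : ℕ) * g) := by
      rw [A.v_mul _ _ (inv_ne_zero hw) (mul_ne_zero hW hTk), A.v_mul _ _ hW hTk, hwv, hpv, hvT,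
        hvw]
      show _ + (A.v (W.coeff k) + _) = A.v (W.coeff k) + _ - _
      ring
    have ha : A.ac (w⁻¹ * (W.coeff k * T ^ (k : ℕ))) = A.cac D W k := by
      rw [A.ac_mul, A.ac_mul, hwa, haw, hpa, haT, one_pow, inv_one, one_mul, mul_one]
      rfl
    have hmin := hk0.2 k hac
    refine ⟨Or.inr ?_, ?_, ?_⟩
    · rw [hv]
      linarith
    · intro hk
      have h4 := hk.2 k0 hk0.1
      unfold AcF0.res
      rw [if_pos ⟨hne, by rw [hv]; linarith⟩, ha]
    · intro hk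
      unfold AcF0.res
      rw [if_neg]
      rintro ⟨-, h4⟩
      apply hk
      refine ⟨hac, fun l hl => ?_⟩
      have h5 := hk0.2 l hl
      rw [hv] at h4
      linarith

end tools

/-- row HEN -/
theorem hen (hres : ResStmt) : HenStmt := by
  classical
  intro p _ K _ A W D hW hD z g hz hS hd
  obtain ⟨h1, h2, -, h3, -, -, hred, -⟩ := hres p K A.toAcF0
  -- there is an argument index
  obtain ⟨k0, hk0⟩ : ∃ k0 : Fin D, Arg (A.cac D W) (A.cv D W) g k0 := by
    by_contra hno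
    apply hd
    unfold Sd
    apply Finset.sum_eq_zero
    intro k _
    rw [if_neg (fun h => hno ⟨k, h⟩)]
  obtain ⟨w, hw, haw, hvw⟩ := A.surj 1 (A.cv D W k0 + (k0 : ℕ) * g) one_ne_zero
  obtain ⟨T, hT, haT, hvT⟩ := A.surj 1 g one_ne_zero
  have hc := nrm_res A.toAcF0 h1 h2 h3 hk0 hw hT haw haT hvw hvT
  have hbig : ∀ i, D ≤ i → (nrm W w T).coeff i = 0 := by
    intro i hi
    rw [nrm_coeff, coeff_eq_zero_of_natDegree_lt (lt_of_lt_of_le hD hi), zero_mul, mul_zero]
  have hres0 : A.res 0 = 0 := by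
    unfold AcF0.res
    simp
  have hInt : ∀ i, A.Int ((nrm W w T).coeff i) := by
    intro i
    by_cases hi : i < D
    · exact (hc ⟨i, hi⟩).1
    · rw [hbig i (not_lt.1 hi)]
      exact Or.inl rfl
  have hco : ∀ k : Fin D, (A.red (nrm W w T)).coeff k =
      if Arg (A.cac D W) (A.cv D W) g k then A.cac D W k else 0 := by
    intro k
    rw [hred]
    by_cases hk : Arg (A.cac D W) (A.cv D W) g k
    · rw [if_pos hk]
      exact (hc k).2.1 hk
    · rw [if_neg hk]
      exact (hc k).2.2 hk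
  have hdeg : (A.red (nrm W w T)).natDegree < D := by
    have hD0 : 0 < D := lt_of_le_of_lt (Nat.zero_le _) hD
    have h4 : (A.red (nrm W w T)).natDegree ≤ D - 1 := by
      rw [natDegree_le_iff_coeff_eq_zero]
      intro N hN
      rw [hred, hbig N (by omega), hres0]
    omega
  have hev : (A.red (nrm W w T)).eval z = 0 := by
    rw [eval_eq_sum_range' hdeg, Finset.sum_range, ← hS]
    unfold Sp
    refine Finset.sum_congr rfl (fun k _ => ?_)
    rw [hco k]
    by_cases hk : Arg (A.cac D W) (A.cv D W) g k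
    · rw [if_pos hk, if_pos hk]
    · rw [if_neg hk, if_neg hk, zero_mul]
  have hder : (derivative (A.red (nrm W w T))).eval z ≠ 0 := by
    have h4 : (derivative (A.red (nrm W w T))).eval z = Sd (A.cac D W) (A.cv D W) g z := by
      rw [derivative_eval, sum_over_range' _ (by intro n; simp) D hdeg, Finset.sum_range]
      unfold Sd
      refine Finset.sum_congr rfl (fun k _ => ?_)
      rw [hco k]
      by_cases hk : Arg (A.cac D W) (A.cv D W) g k
      · rw [if_pos hk, if_pos hk, mul_assoc]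
      · rw [if_neg hk, if_neg hk, zero_mul, zero_mul]
    rw [h4]
    exact hd
  obtain ⟨u, hu1, hu2, hu3⟩ := A.hensel (nrm W w T) z hInt hev hder
  have hu : u ≠ 0 ∧ A.v u = 0 := by
    by_contra hno
    apply hz
    rw [← hu2]
    unfold AcF0.res
    rw [if_neg hno]
  have hua : A.ac u = z := by
    rw [← hu2]
    unfold AcF0.res
    rw [if_pos hu]
  refine ⟨T * u, mul_ne_zero hT hu.1, ?_, ?_, ?_⟩
  · rw [A.ac_mul, haT, hua, one_mul]
  · rw [A.v_mul _ _ hT hu.1, hvT, hu.2, add_zero]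
  · rw [nrm_eval] at hu3
    rcases mul_eq_zero.1 hu3 with h | h
    · exact absurd h (inv_ne_zero hw)
    · exact h

end Pool.Agent.FHQ.H39
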